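import Pool.Agent.helper67.TPC.Spec
import Pool.Agent.helper50.EP.JW

set_option autoImplicit false

open Finset PowerSeries

noncomputable section

namespace Pool.Agent.TPC

open Pool.Agent.EP

theorem KWD_add {l : ℕ} {f₁ g₁ f₂ g₂ : KK} (h₁ : IsT l f₁ g₁) (h₂ : IsT l f₂ g₂) :
    IsT l (f₁ + f₂) (g₁ + g₂) := by
  intro M
  rw [HahnSeries.coeff_add, HahnSeries.coeff_add, h₁ M, h₂ M]
  by_cases h : (l : ℤ) ∣ M
  · rw [if_pos h, if_pos h, if_pos h, HahnSeries.coeff_add]
    ring
  · rw [if_neg h, if_neg h, if_neg h]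
    ring

theorem KWD_zero (l : ℕ) : IsT l 0 0 := by
  intro M
  simp

theorem KWD_smul {l : ℕ} {f g : KK} (a : ZMod 2) (h : IsT l f g) : IsT l (a • f) (a • g) := by
  intro M
  rw [HahnSeries.coeff_smul, HahnSeries.coeff_smul, h M]
  by_cases h1 : (l : ℤ) ∣ M
  · rw [if_pos h1, if_pos h1, HahnSeries.coeff_smul, smul_add]
  · rw [if_neg h1, if_neg h1, add_zero, add_zero]

theorem KWD_cop {l : ℕ} (hl : l.Prime) (h5 : 5 ≤ l) : Nat.Coprime l 6 := by
  rw [Nat.Prime.coprime_iff_not_dvd hl]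
  intro h
  have h6 : l ≤ 6 := Nat.le_of_dvd (by norm_num) h
  interval_cases l
  · revert h; decide
  · revert hl; decide

theorem KWD_step (hTWD : TWD_stmt) (l b c : ℕ) (hl : l.Prime) (h5 : 5 ≤ l) (hb : 1 ≤ b)
    (hc : Nat.Coprime c 6) (f : KK) (hf : f ∈ WC b c) :
    ∃ g ∈ WC (b + if l % 24 ≠ 1 then 1 else 0) (l * c), IsT l f g := by
  unfold WC at hf
  induction hf using Submodule.span_induction with
  | mem x hx =>
    obtain ⟨j, hj, hjc, rfl⟩ := hx
    obtain ⟨g, hg, hT⟩ := hTWD l j hl h5 (hb.trans hj)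
    refine ⟨g, ?_, hT⟩
    refine (Submodule.span_mono ?_) hg
    rintro y ⟨j', hj', hj'c, rfl⟩
    have h1 : (l * j) % 24 = (l * c) % 24 := by
      rw [Nat.mul_mod, hjc, ← Nat.mul_mod]
    refine ⟨j', ?_, hj'c.trans h1, rfl⟩
    by_cases h24 : l % 24 ≠ 1
    · rw [if_pos h24]
      have hne : j' ≠ j := by
        intro he
        rw [he] at hj'c
        apply h24
        have h2 : 1 * j ≡ l * j [MOD 24] := by
          rw [one_mul]
          exact hj'c
        have hcop : Nat.gcd 24 j = 1 := by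
          have h3 : Nat.Coprime c 24 := by
            have : (24 : ℕ) = 2 ^ 2 * 6 := by norm_num
            rw [this]
            refine Nat.Coprime.mul_right (Nat.Coprime.pow_right 2 ?_) hc
            exact Nat.Coprime.coprime_dvd_right (by norm_num) hc
          have h4 : Nat.gcd (j % 24) 24 = Nat.gcd (c % 24) 24 := by rw [hjc]
          rw [Nat.gcd_comm, ← Nat.mod_add_div j 24]
          have h5 : Nat.gcd (j % 24 + 24 * (j / 24)) 24 = Nat.gcd (j % 24) 24 := by
            simp
          have h6 : Nat.gcd (c % 24) 24 = Nat.gcd c 24 := by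
            conv_rhs => rw [← Nat.mod_add_div c 24]
            simp
          rw [h5, h4, h6]
          exact h3
        have h7 := Nat.ModEq.cancel_right_of_coprime hcop h2
        have h8 : 1 % 24 = l % 24 := h7
        omega
      omega
    · rw [if_neg h24]
      omega
  | zero => exact ⟨0, Submodule.zero_mem _, KWD_zero l⟩
  | add x y _ _ hx hy =>
    obtain ⟨g₁, hg₁, h₁⟩ := hx
    obtain ⟨g₂, hg₂, h₂⟩ := hy
    exact ⟨g₁ + g₂, Submodule.add_mem _ hg₁ hg₂, KWD_add h₁ h₂⟩
  | smul a x _ hx =>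
    obtain ⟨g, hg, h⟩ := hx
    exact ⟨a • g, Submodule.smul_mem _ a hg, KWD_smul a h⟩

theorem KWD (hTWD : TWD_stmt) (hJREC : JREC_stmt) (hWM : WM_stmt) : KWD_stmt := by
  classical
  intro S
  induction S using Finset.induction_on with
  | empty =>
    intro _
    refine ⟨ww, Submodule.subset_span ⟨1, ?_, ?_, (pow_one _).symm⟩, fun M => ?_⟩
    · simp
    · simp
    · rw [Finset.prod_empty]
      exact JW_one hWM M
  | insert l S hlS ih =>
    intro hS
    obtain ⟨f, hf, hfc⟩ := ih (fun l' hl' => hS l' (Finset.mem_insert_of_mem hl'))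
    obtain ⟨hl, h5⟩ := hS l (Finset.mem_insert_self l S)
    have hc : Nat.Coprime (∏ l ∈ S, l) 6 :=
      Nat.Coprime.prod_left fun l' hl' => KWD_cop (hS l' (Finset.mem_insert_of_mem hl')).1
        (hS l' (Finset.mem_insert_of_mem hl')).2
    obtain ⟨g, hg, hT⟩ := KWD_step hTWD l _ _ hl h5 (Nat.le_add_right 1 _) hc f hf
    have hcard : 1 + #(Finset.filter (fun l => l % 24 ≠ 1) (insert l S)) =
        1 + #(Finset.filter (fun l => l % 24 ≠ 1) S) + if l % 24 ≠ 1 then 1 else 0 := by
      rw [Finset.filter_insert]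
      by_cases h24 : l % 24 ≠ 1
      · rw [if_pos h24, if_pos h24, Finset.card_insert_of_notMem (fun h => hlS
          (Finset.mem_filter.1 h).1), add_assoc]
      · rw [if_neg h24, if_neg h24, add_zero]
    have hdiv : ¬ l ∣ ∏ l ∈ S, l := by
      intro h
      obtain ⟨l', hl', hd⟩ := (Prime.dvd_finsetProd_iff hl.prime _).1 h
      have he := (Nat.prime_dvd_prime_iff_eq hl (hS l' (Finset.mem_insert_of_mem hl')).1).1 hd
      exact hlS (he ▸ hl')
    have hpos : 0 < ∏ l ∈ S, l :=
      Finset.prod_pos fun l' hl' => (hS l' (Finset.mem_insert_of_mem hl')).1.pos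
    refine ⟨g, ?_, fun M => ?_⟩
    · rw [Finset.prod_insert hlS, hcard]
      exact hg
    · rw [Finset.prod_insert hlS, hT M, hfc, hfc, hJREC ac l _ M hl hpos, if_neg hdiv, add_zero]

end Pool.Agent.TPC
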